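import Pool.Agent.Y509.RF.Fam

/-!
# Exponentially many polytopes with almost equal central sectional areas

A quantitative and strengthened form of the negative answer (starting result `CutCubes`) to the
question whether isotropic centrally symmetric polytopes with at most `d ^ t` facets whose relative
central sectional areas differ by at most `d ^ (-t')` are at Hausdorff distance at most `1 / 10`.

In every dimension `d = 2 ^ k`, `k ≥ 14`, there are `2 ^ (d / 4)` isotropic centrally symmetric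
polytopes with at most `4 d` facets, images of each other under sign changes of the coordinates,
whose relative central sectional areas pairwise differ by at most `2 ^ (-d)` in all directions, and
whose Hausdorff distances are pairwise at least `√d / 4`.
-/

set_option autoImplicit false

namespace Pool.Agent.Results.MP_9f0ab0_gt.ExponentialFamilies

open Pool.Agent.Results.MP_9f0ab0_gt.CutCubes Pool.Agent.Y509.RF

/-- `P` is an isotropic centrally symmetric polytope in `ℝ^d` with at most `m` facets. -/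
def IsGood {d : ℕ} (P : Set (E d)) (m : ℕ) : Prop :=
  IsPolytope P ∧ P = -P ∧ IsIsotropic P ∧ AtMostFacets P m

theorem good_E {k : ℕ} (ε : Fin (2 ^ k) → Bool) : IsGood (PE ε) (4 * 2 ^ k) :=
  ⟨polytope_KK (scl_pos k) _ (WE_abs ε), Pool.Agent.H892R2.Tomo.KK_symm _ _, isoE ε, facets_E ε⟩

theorem family (k : ℕ) (hk : 14 ≤ k) : ∃ P : Fin (2 ^ 2 ^ (k - 2)) → Set (E (2 ^ k)),
      (∀ i, IsGood (P i) (4 * 2 ^ k)) ∧
      (∀ i j, ∃ σ : Fin (2 ^ k) → ℝ, (∀ l, σ l = 1 ∨ σ l = -1) ∧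
        ∀ x : E (2 ^ k), x ∈ P i ↔ WithLp.toLp 2 (fun l => σ l * x l) ∈ P j) ∧
      (∀ i j, ∀ θ : E (2 ^ k), ‖θ‖ = 1 →
        |relSection (P i) θ - relSection (P j) θ| ≤ 1 / 2 ^ (2 ^ k)) ∧
      (∀ i j, i ≠ j → √((2 ^ k : ℕ) : ℝ) / 4 ≤ Metric.hausdorffDist (P i) (P j)) := by
  obtain ⟨T, hT, hc⟩ := code k (by omega)
  obtain ⟨T', hT', hcard⟩ := Finset.exists_subset_card_eq hT
  let e : Fin (2 ^ 2 ^ (k - 2)) ≃ T' := (Finset.equivFinOfCardEq hcard).symm
  refine ⟨fun i => PE (e i : Fin (2 ^ k) → Bool), fun i => good_E _, fun i j => reflect_E _ _,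
    fun i j θ hθ => (sections_E _ _ θ hθ).trans (bound_le k hk), fun i j hij => ?_⟩
  refine far_E _ _ (hc _ (hT' (e i).2) _ (hT' (e j).2) ?_)
  intro h
  exact hij (e.injective (Subtype.ext h))

/-- Part 1: for all `k ≥ 14`, with `d = 2 ^ k`, there are `2 ^ (d / 4)` isotropic centrally symmetric
polytopes in `ℝ^d` with at most `4 d` facets, which are images of each other under sign changes of
the coordinates, with relative central sectional areas that differ by at most `2 ^ (-d)` for all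
unit vectors, and with mutual Hausdorff distances at least `√d / 4`. Part 2: the negative answer to
the question. -/
theorem result :
    (∀ k : ℕ, 14 ≤ k → ∃ P : Fin (2 ^ 2 ^ (k - 2)) → Set (E (2 ^ k)),
      (∀ i, IsGood (P i) (4 * 2 ^ k)) ∧
      (∀ i j, ∃ σ : Fin (2 ^ k) → ℝ, (∀ l, σ l = 1 ∨ σ l = -1) ∧
        ∀ x : E (2 ^ k), x ∈ P i ↔ WithLp.toLp 2 (fun l => σ l * x l) ∈ P j) ∧
      (∀ i j, ∀ θ : E (2 ^ k), ‖θ‖ = 1 →
        |relSection (P i) θ - relSection (P j) θ| ≤ 1 / 2 ^ (2 ^ k)) ∧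
      (∀ i j, i ≠ j → √((2 ^ k : ℕ) : ℝ) / 4 ≤ Metric.hausdorffDist (P i) (P j))) ∧
    ¬ (∀ t : ℕ, 0 < t → ∃ t' : ℕ, 0 < t' ∧ ∀ d : ℕ, 2 ≤ d → ∀ P Q : Set (E d),
      IsGood P (d ^ t) → IsGood Q (d ^ t) →
      (∀ θ : E d, ‖θ‖ = 1 → |relSection P θ - relSection Q θ| ≤ 1 / (d : ℝ) ^ t') →
      Metric.hausdorffDist P Q ≤ 1 / 10) := by
  refine ⟨family, fun hall => ?_⟩
  obtain ⟨t', ht', H⟩ := hall 2 (by norm_num)
  obtain ⟨k, hk⟩ : ∃ k : ℕ, k = 2 * t' + 14 := ⟨_, rfl⟩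
  obtain ⟨P, h1, -, h3, h4⟩ := family k (by omega)
  have hN : 1 < 2 ^ 2 ^ (k - 2) := Nat.one_lt_two_pow (by positivity)
  have hk2 : k * t' ≤ 2 ^ k := by
    have e1 : t' + 7 < 2 ^ (t' + 7) := Nat.lt_two_pow_self
    have e2 : t' < 2 ^ t' := Nat.lt_two_pow_self
    have e3 : k ≤ 2 ^ (t' + 8) := by rw [pow_succ]; omega
    calc k * t' ≤ 2 ^ (t' + 8) * 2 ^ t' := Nat.mul_le_mul e3 e2.le
      _ = 2 ^ (t' + 8 + t') := by rw [← pow_add]
      _ ≤ 2 ^ k := Nat.pow_le_pow_right (by norm_num) (by omega)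
  have h4k : 4 * 2 ^ k ≤ (2 ^ k) ^ 2 := by
    have e1 : 2 ^ 2 ≤ 2 ^ k := Nat.pow_le_pow_right (by norm_num) (by omega)
    nlinarith
  have hgood : ∀ i, IsGood (P i) ((2 ^ k) ^ 2) := fun i =>
    ⟨(h1 i).1, (h1 i).2.1, (h1 i).2.2.1, (h1 i).2.2.2.trans (Nat.cast_le.mpr h4k)⟩
  have h2k : 2 ≤ 2 ^ k := by
    calc 2 = 2 ^ 1 := by norm_num
      _ ≤ 2 ^ k := Nat.pow_le_pow_right (by norm_num) (by omega)
  have h5 := H (2 ^ k) h2k (P ⟨0, by omega⟩) (P ⟨1, hN⟩) (hgood _) (hgood _) (by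
    intro θ hθ
    refine (h3 _ _ θ hθ).trans ?_
    have e1 : ((2 ^ k : ℕ) : ℝ) ^ t' ≤ 2 ^ (2 ^ k) := by
      push_cast
      rw [← pow_mul]
      exact pow_le_pow_right₀ (by norm_num) hk2
    gcongr)
  have h6 := h4 ⟨0, by omega⟩ ⟨1, hN⟩ (by intro h; simp at h)
  have h7 : (2:ℝ) ≤ √((2 ^ k : ℕ) : ℝ) := by
    rw [show (2:ℝ) = √4 by rw [show (4:ℝ) = 2 ^ 2 by norm_num, Real.sqrt_sq (by norm_num)]]
    apply Real.sqrt_le_sqrt
    have e1 : 2 ^ 2 ≤ 2 ^ k := Nat.pow_le_pow_right (by norm_num) (by omega)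
    have e2 : (4:ℕ) ≤ 2 ^ k := by simpa using e1
    exact_mod_cast e2
  linarith

end Pool.Agent.Results.MP_9f0ab0_gt.ExponentialFamilies
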